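import Mathlib
import Pool.Agent.V11145.TriangleMultipartite

/-!
# MP_1de1cd_co : Sidorenko's inequality for Turan graphs

`R(3, T(k,w)) <= k + m(k,w)` for all `1 <= w <= k`; more generally `R(3,G) <= k + m` for every
complete multipartite graph `G` with `k` vertices and `m` edges.
-/

namespace Pool.Agent.Results.MP_1de1cd_co.SidorenkoMultipartite

open SimpleGraph

/-- `R(3,G)`: the least `n` such that the complement of every triangle-free graph on `n` vertices
contains a (not necessarily induced) copy of `G`. -/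
noncomputable def ramsey3 {W : Type} (G : SimpleGraph W) : ℕ :=
  sInf {n : ℕ | ∀ H : SimpleGraph (Fin n), H.CliqueFree 3 → G ⊑ Hᶜ}

/-- `m(k,w)`, the number of edges of the Turan graph `T(k,w)`. -/
noncomputable def turanEdges (k w : ℕ) : ℕ := (turanGraph k w).edgeSet.ncard

lemma turan_multipartite (k w : ℕ) : (turanGraph k w).IsCompleteMultipartite := by
  refine ⟨?_⟩
  intro a b c h1 h2
  rw [turanGraph_adj, not_not] at *
  exact h1.trans h2

lemma exact_vertices {W : Type} [Fintype W] (G : SimpleGraph W) (hG : G.IsCompleteMultipartite)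
    (n : ℕ) (hn : Fintype.card W + G.edgeSet.ncard ≤ n) (H : SimpleGraph (Fin n))
    (hH : H.CliqueFree 3) : G ⊑ Hᶜ :=
  Pool.Agent.V11145.TriangleMultipartite.sidorenko_multipartite G hG H hH (by simpa using hn)

/-- (1) Q1: for all `2 <= w <= k` with `ln k < (3w-1)/(w-1)` we have `R(3,T(k,w)) <= k + m(k,w)`.
(2) The same for all `1 <= w <= k` without the condition on `ln k`, also in the explicit form: the
complement of every triangle-free graph on at least `k + m(k,w)` vertices contains `T(k,w)`.
(3) More generally for every finite complete multipartite graph `G` in place of `T(k,w)`. -/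
theorem result :
    (∀ w k : ℕ, 2 ≤ w → w ≤ k → Real.log k < (3 * (w : ℝ) - 1) / ((w : ℝ) - 1) →
      ramsey3 (turanGraph k w) ≤ k + turanEdges k w) ∧
    (∀ w k : ℕ, 1 ≤ w → w ≤ k → ramsey3 (turanGraph k w) ≤ k + turanEdges k w ∧
      ∀ n : ℕ, k + turanEdges k w ≤ n → ∀ H : SimpleGraph (Fin n), H.CliqueFree 3 →
        turanGraph k w ⊑ Hᶜ) ∧
    (∀ (W : Type) [Fintype W] (G : SimpleGraph W), G.IsCompleteMultipartite →
      ramsey3 G ≤ Fintype.card W + G.edgeSet.ncard ∧
      ∀ n : ℕ, Fintype.card W + G.edgeSet.ncard ≤ n → ∀ H : SimpleGraph (Fin n),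
        H.CliqueFree 3 → G ⊑ Hᶜ) := by
  have h3 : ∀ (W : Type) [Fintype W] (G : SimpleGraph W), G.IsCompleteMultipartite →
      ramsey3 G ≤ Fintype.card W + G.edgeSet.ncard ∧
      ∀ n : ℕ, Fintype.card W + G.edgeSet.ncard ≤ n → ∀ H : SimpleGraph (Fin n),
        H.CliqueFree 3 → G ⊑ Hᶜ := by
    intro W _ G hG
    refine ⟨Nat.sInf_le ?_, fun n hn H hH => exact_vertices G hG n hn H hH⟩
    intro H hH
    exact exact_vertices G hG _ le_rfl H hH
  have h2 : ∀ w k : ℕ, ramsey3 (turanGraph k w) ≤ k + turanEdges k w ∧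
      ∀ n : ℕ, k + turanEdges k w ≤ n → ∀ H : SimpleGraph (Fin n), H.CliqueFree 3 →
        turanGraph k w ⊑ Hᶜ := by
    intro w k
    have := h3 (Fin k) (turanGraph k w) (turan_multipartite k w)
    simpa [turanEdges] using this
  exact ⟨fun w k _ _ _ => (h2 w k).1, fun w k _ _ => h2 w k, h3⟩

end Pool.Agent.Results.MP_1de1cd_co.SidorenkoMultipartite
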